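import Mathlib
import Pool.Agent.Q286.NE.Defs
import Pool.Agent.H902R3.PZ.W1
import Pool.Agent.Q284.S.Gr
import Pool.Agent.Helper242.KK.Gam2

set_option autoImplicit false

/-!
# Growth of the entire members of the Selberg class, and their size left of the critical strip
-/

open Complex

namespace Pool.Agent.Q34.NE

open Pool.Agent.Y532.SC (One co cf co_bdd co_one co_summable cf_bound)

variable {lam nu Q ε : ℝ} {g : ℕ → ℝ} {F : ℂ → ℂ}

theorem sum_two : ∑' n : ℕ, (if n = 1 then 0 else 1 / (n : ℝ) ^ 2) ≤ 2 / 3 := by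
  have h1 := hasSum_zeta_two
  have h2 := h1.summable.tsum_eq_add_tsum_ite 1
  rw [h1.tsum_eq] at h2
  have h3 : Real.pi ^ 2 ≤ 10 := by
    have := Real.pi_lt_d2
    have := Real.pi_pos
    nlinarith
  norm_num at h2
  have h4 : ∑' n : ℕ, (if n = 1 then 0 else 1 / (n : ℝ) ^ 2) =
      ∑' n : ℕ, (if n = 1 then 0 else ((n : ℝ) ^ 2)⁻¹) := by
    refine tsum_congr fun n => ?_
    rw [one_div]
  rw [h4]
  linarith

theorem summable_two : Summable fun n : ℕ => (if n = 1 then 0 else 1 / (n : ℝ) ^ 2) := by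
  refine Summable.of_nonneg_of_le (fun n => ?_) (fun n => ?_) hasSum_zeta_two.summable
  · split_ifs
    · exact le_rfl
    · positivity
  · split_ifs
    · positivity
    · exact le_rfl

/-- the size of `F` to the right of `2` -/
theorem far (h : One lam nu Q ε g F) {s : ℂ} (hs : 2 ≤ s.re) : 1 / 3 ≤ ‖F s‖ ∧ ‖F s‖ ≤ 2 := by
  have hs1 : 1 < s.re := by linarith
  have h1 := co_summable h.bdd hs1
  have h2 : F s = 1 + ∑' n : ℕ, (if n = 1 then 0 else LSeries.term (co g) s n) := by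
    rw [h.series s hs1, LSeries, h1.tsum_eq_add_tsum_ite 1]
    congr 1
    rw [LSeries.term_of_ne_zero one_ne_zero, co_one]
    simp
  have h3 : ∀ n : ℕ, ‖(if n = 1 then 0 else LSeries.term (co g) s n)‖ ≤
      (if n = 1 then 0 else 1 / (n : ℝ) ^ 2) := by
    intro n
    by_cases hn : n = 1
    · rw [if_pos hn, if_pos hn, norm_zero]
    · rw [if_neg hn, if_neg hn]
      rcases Nat.eq_zero_or_pos n with rfl | hpos
      · rw [LSeries.term_zero, norm_zero]
        positivity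
      · rw [LSeries.norm_term_eq, if_neg hpos.ne']
        have h4 : (1 : ℝ) ≤ n := by exact_mod_cast hpos
        have h5 : (n : ℝ) ^ (2 : ℕ) ≤ (n : ℝ) ^ s.re := by
          rw [← Real.rpow_natCast]
          exact Real.rpow_le_rpow_of_exponent_le h4 (by exact_mod_cast hs)
        exact div_le_div₀ zero_le_one (co_bdd h.bdd n) (by positivity) h5
  have h4 : ‖∑' n : ℕ, (if n = 1 then 0 else LSeries.term (co g) s n)‖ ≤ 2 / 3 :=
    (tsum_of_norm_bounded summable_two.hasSum h3).trans sum_two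
  constructor
  · have h5 : (1 : ℂ) = F s - ∑' n : ℕ, (if n = 1 then 0 else LSeries.term (co g) s n) := by
      rw [h2]
      ring
    have h6 := norm_sub_le (F s) (∑' n : ℕ, (if n = 1 then 0 else LSeries.term (co g) s n))
    rw [← h5, norm_one] at h6
    linarith
  · rw [h2]
    refine (norm_add_le _ _).trans ?_
    rw [norm_one]
    linarith

/-- lower bound on a vertical line in the half-plane of absolute convergence -/
theorem near (h : One lam nu Q ε g F) {σ : ℝ} (hσ : 1 < σ) :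
    ∃ c : ℝ, 0 < c ∧ ∀ s : ℂ, s.re = σ → c ≤ ‖F s‖ := by
  have hb := cf_bound h.bdd
  obtain ⟨B, hB⟩ : ∃ B : ℝ, B = ∑' n : ℕ,
    ‖LSeries.term (Pool.Agent.H902R3.PZ.bH 1 (cf g)) (σ : ℂ) n‖ := ⟨_, rfl⟩
  refine ⟨Real.exp (-B), Real.exp_pos _, fun s hs => ?_⟩
  have hs1 : 1 < s.re := by rw [hs]; exact hσ
  have h1 : F s = exp (LSeries (Pool.Agent.H902R3.PZ.bH 1 (cf g)) s) := by
    rw [Pool.Agent.H902R3.PZ.exp_bH hb hs1, h.series s hs1]
    rfl
  rw [h1, Complex.norm_exp]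
  apply Real.exp_le_exp.2
  have h2 : ‖LSeries (Pool.Agent.H902R3.PZ.bH 1 (cf g)) s‖ ≤ B := by
    have h3 := (Pool.Agent.H902R3.PZ.summable_bH hb hs1).norm
    refine (norm_tsum_le_tsum_norm h3).trans (le_of_eq ?_)
    rw [hB]
    refine tsum_congr fun n => ?_
    rw [LSeries.norm_term_eq, LSeries.norm_term_eq, hs, ofReal_re]
  have h3 := (abs_le.1 (Complex.abs_re_le_norm (LSeries (Pool.Agent.H902R3.PZ.bH 1 (cf g)) s))).1
  linarith

/-- the Euler product: no zeros -/
theorem nonvan (h : One lam nu Q ε g F) {s : ℂ} (hs : 1 < s.re) : F s ≠ 0 := by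
  obtain ⟨c, hc, h1⟩ := near h hs
  intro h0
  have := h1 s rfl
  rw [h0, norm_zero] at this
  linarith

theorem not_pole {a b : ℝ} {s : ℂ} (ha : a ≠ 0) (hs : s.im ≠ 0) (n : ℕ) :
    (a : ℂ) * s + b ≠ -(n : ℂ) := by
  intro h
  have h1 := congrArg Complex.im h
  simp at h1
  rcases h1 with h1 | h1
  · exact ha h1
  · exact hs h1

/-- the functional equation -/
theorem fe_norm (h : One lam nu Q ε g F) (hlam : lam ≠ 0) (hQ : 0 < Q) {s : ℂ} (hs : s.im ≠ 0) :
    ‖F s‖ * Q ^ s.re * ‖Gamma ((lam : ℂ) * s + nu)‖ =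
      ‖F (1 - starRingEnd ℂ s)‖ * Q ^ (1 - s.re) * ‖Gamma ((lam : ℂ) * (1 - starRingEnd ℂ s) + nu)‖ := by
  have him : (1 - starRingEnd ℂ s).im = s.im := by simp
  have h1 := h.fe s (not_pole hlam hs) (not_pole hlam (by rw [him]; exact hs))
  have h2 := congrArg norm h1
  have he : ‖(ε : ℂ)‖ = 1 := by
    rcases h.eps with h3 | h3 <;> rw [h3] <;> simp
  rw [norm_mul, norm_mul, norm_mul, he, one_mul, RCLike.norm_conj, norm_mul, norm_mul,
    Complex.norm_cpow_eq_rpow_re_of_pos hQ, Complex.norm_cpow_eq_rpow_re_of_pos hQ] at h2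
  have h4 : (1 - starRingEnd ℂ s).re = 1 - s.re := by simp
  rw [h4] at h2
  exact h2

/-- no zeros to the left of the strip -/
theorem nonvan_left (h : One lam nu Q ε g F) (hlam : lam ≠ 0) (hQ : 0 < Q) {s : ℂ} (hs : s.im ≠ 0)
    (hs0 : s.re < 0) : F s ≠ 0 := by
  intro h0
  have h1 := fe_norm h hlam hQ hs
  rw [h0, norm_zero, zero_mul, zero_mul] at h1
  have h2 : F (1 - starRingEnd ℂ s) ≠ 0 := nonvan h (by simp; linarith)
  have him : (1 - starRingEnd ℂ s).im = s.im := by simp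
  have h3 : Gamma ((lam : ℂ) * (1 - starRingEnd ℂ s) + nu) ≠ 0 :=
    Complex.Gamma_ne_zero (not_pole hlam (by rw [him]; exact hs))
  have h4 : 0 < ‖F (1 - starRingEnd ℂ s)‖ * Q ^ (1 - s.re) *
      ‖Gamma ((lam : ℂ) * (1 - starRingEnd ℂ s) + nu)‖ := by
    have a1 := norm_pos_iff.2 h2
    have a2 := norm_pos_iff.2 h3
    have a3 := Real.rpow_pos_of_pos hQ (1 - s.re)
    positivity
  linarith

end Pool.Agent.Q34.NE
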