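import Pool.Agent.Q34.NE.Z1

set_option autoImplicit false

/-!
# Growth of the entire members of the Selberg class to the right of `-1`, and a lower bound on
the line `-3/4`
-/

open Complex

namespace Pool.Agent.Q34.NE

open Pool.Agent.Y532.SC (One)

variable {lam nu Q ε : ℝ} {g : ℕ → ℝ} {F : ℂ → ℂ}

/-- the value of `F` on the left, by the functional equation -/
theorem left_eq (h : One lam nu Q ε g F) (hlam : 0 < lam) (hQ : 0 < Q) (σ : ℝ) {y : ℝ} (hy : y ≠ 0) :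
    ‖F ((σ : ℂ) + y * I)‖ * ‖Gamma (((lam * σ + nu : ℝ) : ℂ) + ((lam * y : ℝ) : ℂ) * I)‖ =
      Q ^ (1 - 2 * σ) * ‖F (((1 - σ : ℝ) : ℂ) + y * I)‖ *
        ‖Gamma (((lam * (1 - σ) + nu : ℝ) : ℂ) + ((lam * y : ℝ) : ℂ) * I)‖ := by
  have him : ((σ : ℂ) + y * I).im = y := by simp
  have hre : ((σ : ℂ) + y * I).re = σ := by simp
  have h1 := fe_norm h hlam.ne' hQ (s := (σ : ℂ) + y * I) (by rw [him]; exact hy)
  rw [hre] at h1
  have e1 : 1 - starRingEnd ℂ ((σ : ℂ) + y * I) = ((1 - σ : ℝ) : ℂ) + y * I := by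
    simp only [map_add, map_mul, Complex.conj_ofReal, Complex.conj_I]
    push_cast
    ring
  have e2 : (lam : ℂ) * ((σ : ℂ) + y * I) + nu =
      ((lam * σ + nu : ℝ) : ℂ) + ((lam * y : ℝ) : ℂ) * I := by
    push_cast
    ring
  have e3 : (lam : ℂ) * (((1 - σ : ℝ) : ℂ) + y * I) + nu =
      ((lam * (1 - σ) + nu : ℝ) : ℂ) + ((lam * y : ℝ) : ℂ) * I := by
    push_cast
    ring
  rw [e1, e2, e3] at h1
  have h2 : Q ^ (1 - σ) = Q ^ (1 - 2 * σ) * Q ^ σ := by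
    rw [← Real.rpow_add hQ]
    congr 1
    ring
  have h3 : 0 < Q ^ σ := Real.rpow_pos_of_pos hQ _
  rw [h2] at h1
  have h4 : Q ^ σ * (‖F ((σ : ℂ) + y * I)‖ *
      ‖Gamma (((lam * σ + nu : ℝ) : ℂ) + ((lam * y : ℝ) : ℂ) * I)‖) =
      Q ^ σ * (Q ^ (1 - 2 * σ) * ‖F (((1 - σ : ℝ) : ℂ) + y * I)‖ *
        ‖Gamma (((lam * (1 - σ) + nu : ℝ) : ℂ) + ((lam * y : ℝ) : ℂ) * I)‖) := by
    linear_combination h1
  exact mul_left_cancel₀ h3.ne' h4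

/-- the line `-1` -/
theorem line_one (h : One lam nu Q ε g F) (hlam : 5 ≤ lam) (hnu : 0 ≤ nu) (hQ : 0 < Q) :
    ∃ C : ℝ, 0 < C ∧ ∀ s : ℂ, s.re = -1 → ‖F s‖ ≤ C * ‖s + 3‖ ^ (⌈3 * lam⌉₊ + 2) := by
  obtain ⟨N, hN⟩ : ∃ N : ℕ, N = ⌈3 * lam⌉₊ + 2 := ⟨_, rfl⟩
  have hN1 : 3 * lam + 2 ≤ N := by
    rw [hN]
    push_cast
    linarith [Nat.le_ceil (3 * lam)]
  rw [← hN]
  obtain ⟨C1, hC1, h1⟩ := Pool.Agent.Q284.S.Gamma_le 0 (2 * lam + nu) (by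
    rw [Nat.cast_zero, add_zero]; linarith)
  obtain ⟨C2, hC2, h2⟩ := Pool.Agent.Helper242.KK.inv_Gamma_bound (ε := 1) one_pos
  -- the compact part
  obtain ⟨M, hM⟩ : ∃ M : ℝ, ∀ y ∈ Set.Icc (-1 : ℝ) 1, ‖F (-1 + y * I)‖ ≤ M := by
    have hc : ContinuousOn (fun y : ℝ => ‖F (-1 + y * I)‖) (Set.Icc (-1 : ℝ) 1) :=
      ((h.diff.continuous.comp (by fun_prop)).norm).continuousOn
    obtain ⟨M, hM⟩ := isCompact_Icc.bddAbove_image hc
    exact ⟨M, fun y hy => hM ⟨y, hy, rfl⟩⟩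
  obtain ⟨D, hD⟩ : ∃ D : ℝ, D = Q ^ (3 : ℝ) * 2 * C1 * (C2 * Real.exp (1 * (-lam + nu) ^ 2)) *
    (2 * (1 + lam)) ^ N := ⟨_, rfl⟩
  have hQ3 : 0 < Q ^ (3 : ℝ) := Real.rpow_pos_of_pos hQ _
  have hD0 : 0 < D := by
    rw [hD]
    positivity
  refine ⟨D + |M|, by positivity, fun s hs => ?_⟩
  obtain ⟨y, hy⟩ : ∃ y : ℝ, y = s.im := ⟨_, rfl⟩
  have hsy : s = ((-1 : ℝ) : ℂ) + y * I := by
    rw [hy, ← hs]
    exact (Complex.re_add_im s).symm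
  have hs3re : (s + 3).re = 2 := by
    rw [add_re, hs]
    norm_num
  have hs3im : (s + 3).im = y := by
    rw [add_im, hy]
    simp
  have hn2 : 2 ≤ ‖s + 3‖ := by
    have := Complex.abs_re_le_norm (s + 3)
    rw [hs3re, abs_of_pos (by norm_num : (0 : ℝ) < 2)] at this
    exact this
  have hny : |y| ≤ ‖s + 3‖ := by
    have := Complex.abs_im_le_norm (s + 3)
    rwa [hs3im] at this
  have hp1 : 1 ≤ ‖s + 3‖ ^ N := one_le_pow₀ (by linarith)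
  by_cases hy1 : |y| ≤ 1
  · have h3 := hM y (abs_le.1 hy1)
    have e1 : s = -1 + y * I := by
      rw [hsy]
      push_cast
      ring
    rw [← e1] at h3
    calc ‖F s‖ ≤ |M| := h3.trans (le_abs_self M)
      _ ≤ (D + |M|) * 1 := by linarith
      _ ≤ _ := mul_le_mul_of_nonneg_left hp1 (by positivity)
  · push Not at hy1
    have hy0 : y ≠ 0 := by
      rintro rfl
      rw [abs_zero] at hy1
      linarith
    have hl0 : 0 < lam := by linarith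
    have h3 := left_eq h hl0 hQ (-1) hy0
    rw [← hsy] at h3
    have e1 : lam * (1 - -1) + nu = 2 * lam + nu := by ring
    have e2 : (1 : ℝ) - 2 * -1 = 3 := by norm_num
    have e3 : lam * -1 + nu = -lam + nu := by ring
    have e4 : (1 : ℝ) - -1 = 2 := by norm_num
    rw [e1, e2, e3, e4] at h3
    have hv : |lam * y| = lam * |y| := by rw [abs_mul, abs_of_pos hl0]
    have hv1 : 1 ≤ |lam * y| := by
      rw [hv]
      nlinarith
    have h4 := h1 (lam * y) hv1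
    have h5 := h2 (-lam + nu) (lam * y)
    obtain ⟨v, hvd⟩ : ∃ v : ℝ, v = |lam * y| := ⟨_, rfl⟩
    rw [← hvd] at h4 h5 hv1 hv
    obtain ⟨Gd, hGd⟩ : ∃ z : ℂ, z = Gamma (((-lam + nu : ℝ) : ℂ) + ((lam * y : ℝ) : ℂ) * I) := ⟨_, rfl⟩
    obtain ⟨Gn, hGn⟩ : ∃ z : ℂ, z = Gamma (((2 * lam + nu : ℝ) : ℂ) + ((lam * y : ℝ) : ℂ) * I) := ⟨_, rfl⟩
    rw [← hGd, ← hGn] at h3
    rw [← hGn] at h4
    rw [← hGd] at h5
    have hGd0 : Gd ≠ 0 := by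
      rw [hGd]
      apply Complex.Gamma_ne_zero
      intro n hn
      have := congrArg Complex.im hn
      simp at this
      rcases this with h6 | h6
      · exact hl0.ne' h6
      · exact hy0 h6
    have h6 : ‖F s‖ = Q ^ (3 : ℝ) * ‖F (((2 : ℝ) : ℂ) + y * I)‖ * ‖Gn‖ * ‖Gd⁻¹‖ := by
      rw [← h3, norm_inv, mul_assoc, mul_inv_cancel₀ (norm_ne_zero_iff.2 hGd0), mul_one]
    have h7 : ‖F (((2 : ℝ) : ℂ) + y * I)‖ ≤ 2 := (far h (by simp)).2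
    have hexp : Real.exp (-(Real.pi / 2 * v)) * Real.exp (Real.pi / 2 * v) = 1 := by
      rw [← Real.exp_add, neg_add_cancel, Real.exp_zero]
    have hv0 : 0 < v := by linarith
    have h8 : v ^ (2 * lam + nu - 1 / 2) * (1 + v) ^ (2 - (-lam + nu)) ≤
        (2 * (1 + lam)) ^ N * ‖s + 3‖ ^ N := by
      have a1 : v ^ (2 * lam + nu - 1 / 2) ≤ (1 + v) ^ (2 * lam + nu - 1 / 2) :=
        Real.rpow_le_rpow hv0.le (by linarith) (by linarith)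
      have a2 : (1 + v) ^ (2 * lam + nu - 1 / 2) * (1 + v) ^ (2 - (-lam + nu)) ≤ (1 + v) ^ (N : ℝ) := by
        rw [← Real.rpow_add (by linarith)]
        exact Real.rpow_le_rpow_of_exponent_le (by linarith) (by linarith)
      have a3 : 1 + v ≤ 2 * (1 + lam) * ‖s + 3‖ := by
        rw [hv]
        have : lam * |y| ≤ lam * ‖s + 3‖ := mul_le_mul_of_nonneg_left hny hl0.le
        nlinarith
      have a4 : 0 ≤ (1 + v) ^ (2 - (-lam + nu)) := Real.rpow_nonneg (by linarith) _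
      calc v ^ (2 * lam + nu - 1 / 2) * (1 + v) ^ (2 - (-lam + nu)) ≤
          (1 + v) ^ (2 * lam + nu - 1 / 2) * (1 + v) ^ (2 - (-lam + nu)) :=
            mul_le_mul_of_nonneg_right a1 a4
        _ ≤ (1 + v) ^ (N : ℝ) := a2
        _ = (1 + v) ^ N := Real.rpow_natCast _ _
        _ ≤ (2 * (1 + lam) * ‖s + 3‖) ^ N := pow_le_pow_left₀ (by linarith) a3 N
        _ = _ := by rw [mul_pow]
    have h9 : ‖Gn‖ * ‖Gd⁻¹‖ ≤ C1 * (C2 * Real.exp (1 * (-lam + nu) ^ 2)) *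
        ((2 * (1 + lam)) ^ N * ‖s + 3‖ ^ N) := by
      calc ‖Gn‖ * ‖Gd⁻¹‖ ≤ (C1 * v ^ (2 * lam + nu - 1 / 2) * Real.exp (-(Real.pi / 2 * v))) *
          (C2 * Real.exp (1 * (-lam + nu) ^ 2) * (1 + v) ^ (2 - (-lam + nu)) *
            Real.exp (Real.pi / 2 * v)) := mul_le_mul h4 h5 (norm_nonneg _) (by positivity)
        _ = C1 * (C2 * Real.exp (1 * (-lam + nu) ^ 2)) *
            (v ^ (2 * lam + nu - 1 / 2) * (1 + v) ^ (2 - (-lam + nu))) *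
            (Real.exp (-(Real.pi / 2 * v)) * Real.exp (Real.pi / 2 * v)) := by ring
        _ ≤ _ := by
          rw [hexp, mul_one]
          exact mul_le_mul_of_nonneg_left h8 (by positivity)
    have h10 : ‖F s‖ ≤ D * ‖s + 3‖ ^ N := by
      rw [h6, mul_assoc]
      calc Q ^ (3 : ℝ) * ‖F (((2 : ℝ) : ℂ) + y * I)‖ * (‖Gn‖ * ‖Gd⁻¹‖) ≤
          Q ^ (3 : ℝ) * 2 * (C1 * (C2 * Real.exp (1 * (-lam + nu) ^ 2)) *
            ((2 * (1 + lam)) ^ N * ‖s + 3‖ ^ N)) :=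
            mul_le_mul (mul_le_mul_of_nonneg_left h7 hQ3.le) h9 (by positivity) (by positivity)
        _ = _ := by
          rw [hD]
          ring
    refine h10.trans (mul_le_mul_of_nonneg_right ?_ (by positivity))
    have := abs_nonneg M
    linarith

/-- growth to the right of `-1` -/
theorem growth (h : One lam nu Q ε g F) (hlam : 5 ≤ lam) (hnu : 0 ≤ nu) (hQ : 0 < Q) :
    ∃ C : ℝ, 0 < C ∧ ∀ s : ℂ, -1 ≤ s.re → ‖F s‖ ≤ C * ‖s + 3‖ ^ (⌈3 * lam⌉₊ + 2) := by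
  obtain ⟨C, hC, h1⟩ := line_one h hlam hnu hQ
  obtain ⟨N, hN⟩ : ∃ N : ℕ, N = ⌈3 * lam⌉₊ + 2 := ⟨_, rfl⟩
  rw [← hN] at h1 ⊢
  obtain ⟨C0, hC0⟩ := h.growth
  have hge : ∀ s : ℂ, 2 ≤ s.re → ‖F s‖ ≤ (C + 2) * ‖s + 3‖ ^ N := by
    intro s hs
    have h2 := (far h hs).2
    have h3 : 1 ≤ ‖s + 3‖ := by
      have := Complex.re_le_norm (s + 3)
      have h4 : (s + 3).re = s.re + 3 := by simp
      linarith
    have h4 : 1 ≤ ‖s + 3‖ ^ N := one_le_pow₀ h3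
    nlinarith
  refine ⟨C + 2, by linarith, fun s hs => ?_⟩
  rcases le_total 2 s.re with h2 | h2
  · exact hge s h2
  · obtain ⟨K, hK⟩ : ∃ K : ℝ, ∀ x : ℝ, 0 ≤ x → (x + 2) ^ 3 ≤ K + x ^ 4 := by
      refine ⟨10000, fun x hx => ?_⟩
      have h5 : (x + 2) ^ 3 ≤ 10000 + x ^ 4 := by
        nlinarith [sq_nonneg (x ^ 2 - 5 * x), sq_nonneg (x - 5), sq_nonneg (x ^ 2 - 10),
          sq_nonneg (x ^ 2), sq_nonneg (x - 10)]
      exact h5
    have hgr : ∀ z : ℂ, ‖F (z - 2)‖ ≤ |C0| * Real.exp K * Real.exp (‖z‖ ^ (4 : ℝ)) := by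
      intro z
      refine (hC0 (z - 2)).trans ?_
      have a1 : ‖z - 2‖ ≤ ‖z‖ + 2 := by
        refine (norm_sub_le _ _).trans ?_
        simp
      have a2 : ‖z - 2‖ ^ (3 : ℝ) ≤ K + ‖z‖ ^ (4 : ℝ) := by
        have a3 : ‖z - 2‖ ^ (3 : ℝ) = ‖z - 2‖ ^ (3 : ℕ) := by
          rw [← Real.rpow_natCast]
          norm_num
        have a4 : ‖z‖ ^ (4 : ℝ) = ‖z‖ ^ (4 : ℕ) := by
          rw [← Real.rpow_natCast]
          norm_num
        rw [a3, a4]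
        exact (pow_le_pow_left₀ (norm_nonneg _) a1 3).trans (hK _ (norm_nonneg _))
      calc C0 * Real.exp (‖z - 2‖ ^ (3 : ℝ)) ≤ |C0| * Real.exp (K + ‖z‖ ^ (4 : ℝ)) :=
            mul_le_mul (le_abs_self _) (Real.exp_le_exp.2 a2) (Real.exp_pos _).le (abs_nonneg _)
        _ = _ := by rw [Real.exp_add]; ring
    have key := Pool.Agent.Q284.S.strip (G := fun z => F (z - 2))
      (h.diff.comp (differentiable_id.sub_const 2)) (A := 4) (by norm_num) hgr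
      (a := 1) (b := 4) (by norm_num) (by norm_num) N (C := C + 2) (fun z hz => ?_) (fun z hz => ?_)
      (s := s + 2) (by simp; linarith) (by simp; linarith)
    · have e1 : s + 2 - 2 = s := by ring
      have e2 : s + 2 + 1 = s + 3 := by ring
      rw [e1, e2] at key
      exact key
    · have a1 := h1 (z - 2) (by simp [hz]; norm_num)
      have e1 : z - 2 + 3 = z + 1 := by ring
      rw [e1] at a1
      refine a1.trans (mul_le_mul_of_nonneg_right (by linarith) (by positivity))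
    · have a1 := hge (z - 2) (by simp [hz]; norm_num)
      have e1 : z - 2 + 3 = z + 1 := by ring
      rwa [e1] at a1

/-- lower bound on the line `-3/4` -/
theorem low_line (h : One lam nu Q ε g F) (hlam : 5 ≤ lam) (hnu : 0 ≤ nu) (hQ : 0 < Q) :
    ∃ c : ℝ, 0 < c ∧ ∀ t : ℝ, 1 ≤ t → c * t ^ (5 / 2 * lam - 3 / 2) ≤ ‖F (((-3 / 4 : ℝ) : ℂ) + t * I)‖ := by
  have hl0 : 0 < lam := by linarith
  obtain ⟨c0, hc0, h0⟩ := near h (σ := 7 / 4) (by norm_num)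
  obtain ⟨C1, hC1, h1⟩ := Pool.Agent.Q284.S.Gamma_le ⌈lam⌉₊ (lam * (-3 / 4) + nu) (by
    have := Nat.le_ceil lam
    linarith)
  obtain ⟨C2, hC2, h2⟩ := Pool.Agent.Helper242.KK.inv_Gamma_bound (ε := 1) one_pos
  obtain ⟨E, hE⟩ : ∃ E : ℝ, E = C2 * Real.exp (1 * (lam * (1 - -3 / 4) + nu) ^ 2) := ⟨_, rfl⟩
  have hE0 : 0 < E := by rw [hE]; positivity
  have hQ3 : 0 < Q ^ (1 - 2 * (-3 / 4) : ℝ) := Real.rpow_pos_of_pos hQ _
  refine ⟨Q ^ (1 - 2 * (-3 / 4) : ℝ) * c0 / (C1 * E), by positivity, fun t ht => ?_⟩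
  have ht0 : 0 < t := by linarith
  have h3 := left_eq h hl0 hQ (-3 / 4) ht0.ne'
  have hv : |lam * t| = lam * t := abs_of_pos (by positivity)
  have h4 := h1 (lam * t) (by rw [hv]; nlinarith)
  have h5 := h2 (lam * (1 - -3 / 4) + nu) (lam * t)
  rw [← hE] at h5
  rw [hv] at h4 h5
  obtain ⟨v, hvd⟩ : ∃ v : ℝ, v = lam * t := ⟨_, rfl⟩
  obtain ⟨Gd, hGd⟩ : ∃ z : ℂ, z = Gamma (((lam * (-3 / 4) + nu : ℝ) : ℂ) + ((lam * t : ℝ) : ℂ) * I) :=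
    ⟨_, rfl⟩
  obtain ⟨Gn, hGn⟩ : ∃ z : ℂ,
    z = Gamma (((lam * (1 - -3 / 4) + nu : ℝ) : ℂ) + ((lam * t : ℝ) : ℂ) * I) := ⟨_, rfl⟩
  rw [← hGd, ← hGn] at h3
  rw [← hGd, ← hvd] at h4
  rw [← hGn, ← hvd] at h5
  have hvt : t ≤ v := by rw [hvd]; nlinarith
  have hv0 : 0 < v := by linarith
  have h6 := h0 (((1 - -3 / 4 : ℝ) : ℂ) + t * I) (by simp; norm_num)
  have hGn0 : Gn ≠ 0 := by
    rw [hGn]
    apply Complex.Gamma_ne_zero
    intro n hn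
    have := congrArg Complex.im hn
    simp at this
    rcases this with h6 | h6
    · exact hl0.ne' h6
    · exact ht0.ne' h6
  obtain ⟨x, hx⟩ : ∃ x : ℝ, x = ‖F (((-3 / 4 : ℝ) : ℂ) + t * I)‖ := ⟨_, rfl⟩
  rw [← hx] at h3 ⊢
  have hx0 : 0 ≤ x := by rw [hx]; exact norm_nonneg _
  have hexp : Real.exp (-(Real.pi / 2 * v)) * Real.exp (Real.pi / 2 * v) = 1 := by
    rw [← Real.exp_add, neg_add_cancel, Real.exp_zero]
  obtain ⟨q, hq⟩ : ∃ q : ℝ, q = Q ^ (1 - 2 * (-3 / 4) : ℝ) := ⟨_, rfl⟩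
  rw [← hq] at h3 hQ3 ⊢
  -- the main inequality
  have h7 : q * c0 ≤ x * ‖Gd‖ * ‖Gn⁻¹‖ := by
    rw [h3, norm_inv, mul_assoc, mul_inv_cancel₀ (norm_ne_zero_iff.2 hGn0), mul_one]
    exact mul_le_mul_of_nonneg_left h6 hQ3.le
  have h8 : ‖Gd‖ * ‖Gn⁻¹‖ ≤ C1 * E * v ^ (-(5 / 2 * lam - 3 / 2)) := by
    have a0 : (1 + v) ^ (2 - (lam * (1 - -3 / 4) + nu)) ≤ v ^ (2 - (lam * (1 - -3 / 4) + nu)) :=
      Real.rpow_le_rpow_of_nonpos hv0 (by linarith) (by nlinarith)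
    have a1 : v ^ (lam * (-3 / 4) + nu - 1 / 2) * v ^ (2 - (lam * (1 - -3 / 4) + nu)) =
        v ^ (-(5 / 2 * lam - 3 / 2)) := by
      rw [← Real.rpow_add hv0]
      congr 1
      ring
    calc ‖Gd‖ * ‖Gn⁻¹‖ ≤ (C1 * v ^ (lam * (-3 / 4) + nu - 1 / 2) * Real.exp (-(Real.pi / 2 * v))) *
          (E * (1 + v) ^ (2 - (lam * (1 - -3 / 4) + nu)) * Real.exp (Real.pi / 2 * v)) :=
          mul_le_mul h4 h5 (norm_nonneg _) (by positivity)
      _ = C1 * E * (v ^ (lam * (-3 / 4) + nu - 1 / 2) * (1 + v) ^ (2 - (lam * (1 - -3 / 4) + nu))) *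
          (Real.exp (-(Real.pi / 2 * v)) * Real.exp (Real.pi / 2 * v)) := by ring
      _ = C1 * E * (v ^ (lam * (-3 / 4) + nu - 1 / 2) * (1 + v) ^ (2 - (lam * (1 - -3 / 4) + nu))) := by
          rw [hexp, mul_one]
      _ ≤ C1 * E * (v ^ (lam * (-3 / 4) + nu - 1 / 2) * v ^ (2 - (lam * (1 - -3 / 4) + nu))) := by
          have a2 : 0 ≤ v ^ (lam * (-3 / 4) + nu - 1 / 2) := Real.rpow_nonneg hv0.le _
          exact mul_le_mul_of_nonneg_left (mul_le_mul_of_nonneg_left a0 a2) (by positivity)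
      _ = _ := by rw [a1]
  have h9 : q * c0 ≤ x * (C1 * E * v ^ (-(5 / 2 * lam - 3 / 2))) := by
    refine h7.trans ?_
    rw [mul_assoc]
    exact mul_le_mul_of_nonneg_left h8 hx0
  have h10 : t ^ (5 / 2 * lam - 3 / 2) ≤ v ^ (5 / 2 * lam - 3 / 2) :=
    Real.rpow_le_rpow ht0.le hvt (by linarith)
  have h11 : v ^ (5 / 2 * lam - 3 / 2) * v ^ (-(5 / 2 * lam - 3 / 2)) = 1 := by
    rw [← Real.rpow_add hv0, add_neg_cancel, Real.rpow_zero]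
  have h12 : 0 < v ^ (5 / 2 * lam - 3 / 2) := Real.rpow_pos_of_pos hv0 _
  calc q * c0 / (C1 * E) * t ^ (5 / 2 * lam - 3 / 2) ≤ q * c0 / (C1 * E) * v ^ (5 / 2 * lam - 3 / 2) :=
        mul_le_mul_of_nonneg_left h10 (by positivity)
    _ ≤ x * (C1 * E * v ^ (-(5 / 2 * lam - 3 / 2))) / (C1 * E) * v ^ (5 / 2 * lam - 3 / 2) := by
        gcongr
    _ = x * (v ^ (5 / 2 * lam - 3 / 2) * v ^ (-(5 / 2 * lam - 3 / 2))) := by
        field_simp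
    _ = x := by rw [h11, mul_one]

end Pool.Agent.Q34.NE
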