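import Pool.Agent.Q34.NE.Z2
import Pool.Agent.W186.LH.Sab

set_option autoImplicit false

/-!
# Local upper and lower bounds for the number of zeros
-/

open Complex

namespace Pool.Agent.Q34.NE

open Pool.Agent.Y532.SC (One)
open Pool.Agent.Q286.NE (S_UP S_LOW)

/-- orders under an affine change of the variable -/
theorem ord_affine (G : ℂ → ℂ) (b u : ℂ) :
    analyticOrderNatAt (fun z => G (2 * z + b)) u = analyticOrderNatAt G (2 * u + b) := by
  have h1 : AnalyticAt ℂ (fun z : ℂ => 2 * z + b) u := by fun_prop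
  have h2 : deriv (fun z : ℂ => 2 * z + b) u ≠ 0 := by
    have : HasDerivAt (fun z : ℂ => 2 * z + b) (2 * 1) u :=
      ((hasDerivAt_id u).const_mul 2).add_const b
    rw [this.deriv]
    norm_num
  have h3 := analyticOrderAt_comp_of_deriv_ne_zero (f := G) h1 h2
  unfold analyticOrderNatAt
  rw [← h3]
  rfl

theorem ceil_le {lam : ℝ} (hlam : 5 ≤ lam) : ((⌈3 * lam⌉₊ + 2 : ℕ) : ℝ) ≤ 3 * lam + 3 := by
  push_cast
  have := Nat.ceil_lt_add_one (show 0 ≤ 3 * lam by linarith)
  linarith

/-- **Upper bound.** -/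
theorem up : S_UP := by
  have hq : 0 < Real.log (3 / (23 / 10)) := Real.log_pos (by norm_num)
  refine ⟨8 / Real.log (3 / (23 / 10)), by positivity, ?_⟩
  intro lam nu Q ε g F hlam hnu _ hQ h
  obtain ⟨C, hC, hgr⟩ := growth h hlam hnu hQ
  obtain ⟨N, hN⟩ : ∃ N : ℕ, N = ⌈3 * lam⌉₊ + 2 := ⟨_, rfl⟩
  have hN1 : (N : ℝ) ≤ 3 * lam + 3 := by rw [hN]; exact ceil_le hlam
  rw [← hN] at hgr
  refine ⟨10 + 3 * C, by linarith, fun t ht S hS => ?_⟩
  have ht0 : 0 < t := by linarith
  have hlog0 : 0 < Real.log t := Real.log_pos (by linarith)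
  have hc := far h (s := 2 + t * I) (by simp)
  have hc0 : F (2 + t * I) ≠ 0 := by
    intro h0
    rw [h0, norm_zero] at hc
    linarith [hc.1]
  have key := Pool.Agent.W186.LH.jc h.diff (c := 2 + t * I) (r := 23 / 10) (R := 3)
    (M := C * (t + 8) ^ N) (by norm_num) (by norm_num) (fun u hu => ?_) hc0 S (fun z hz => ?_)
  · -- take logarithms
    obtain ⟨n, hn⟩ : ∃ n : ℕ, n = ∑ z ∈ S, analyticOrderNatAt F z := ⟨_, rfl⟩
    rw [← hn] at key
    have e1 : ∑ z ∈ S, (analyticOrderNatAt F z : ℝ) = n := by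
      rw [hn]
      push_cast
      rfl
    rw [e1]
    have h1 : (3 / (23 / 10) : ℝ) ^ n ≤ 3 * C * (t + 8) ^ N := by
      have a1 : 0 < (3 / (23 / 10) : ℝ) ^ n := by positivity
      nlinarith [hc.1]
    have h2 := Real.log_le_log (by positivity) h1
    rw [Real.log_pow, Real.log_mul (by positivity) (by positivity), Real.log_pow] at h2
    have h3 : Real.log (3 * C) ≤ Real.log t := Real.log_le_log (by positivity) (by linarith)
    have h4 : Real.log (t + 8) ≤ 2 * Real.log t := by
      have a1 : t + 8 ≤ t ^ 2 := by nlinarith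
      have a2 := Real.log_le_log (by linarith) a1
      rw [Real.log_pow] at a2
      exact_mod_cast a2
    have h5 : (N : ℝ) * Real.log (t + 8) ≤ (3 * lam + 3) * (2 * Real.log t) := by
      have a1 : 0 ≤ Real.log (t + 8) := Real.log_nonneg (by linarith)
      exact mul_le_mul hN1 h4 a1 (by linarith)
    have h6 : (n : ℝ) * Real.log (3 / (23 / 10)) ≤ 8 * lam * Real.log t := by nlinarith
    rw [div_mul_eq_mul_div, div_mul_eq_mul_div, le_div_iff₀ hq]
    exact h6
  · rw [mem_sphere_iff_norm] at hu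
    have hre : -1 ≤ u.re := by
      have a1 := (abs_le.1 (Complex.abs_re_le_norm (u - (2 + t * I)))).1
      have a2 : (u - (2 + t * I)).re = u.re - 2 := by simp
      rw [a2, hu] at a1
      linarith
    refine (hgr u hre).trans (mul_le_mul_of_nonneg_left ?_ hC.le)
    refine pow_le_pow_left₀ (norm_nonneg _) ?_ N
    have e1 : u + 3 = (u - (2 + t * I)) + (((5 : ℝ) : ℂ) + t * I) := by
      push_cast
      ring
    rw [e1]
    refine (norm_add_le _ _).trans ?_
    rw [hu]
    have a3 : ‖((5 : ℝ) : ℂ) + t * I‖ ≤ 5 + t := by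
      refine (norm_add_le _ _).trans ?_
      rw [norm_mul, norm_I, mul_one, norm_real, norm_real, Real.norm_of_nonneg (by norm_num),
        Real.norm_of_nonneg ht0.le]
    linarith
  · obtain ⟨-, h1, h2, h3⟩ := hS z hz
    rw [mem_closedBall_iff_norm]
    have e1 : z - (2 + t * I) = ((z.re - 2 : ℝ) : ℂ) + ((z.im - t : ℝ) : ℂ) * I := by
      apply Complex.ext <;> simp
    rw [e1, Complex.norm_add_mul_I]
    apply Real.sqrt_le_iff.2
    have h4 := abs_le.1 h3
    constructor
    · norm_num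
    · nlinarith

/-- **Lower bound.** -/
theorem low : S_LOW := by
  obtain ⟨e0, he0, hsab⟩ := Pool.Agent.W186.LH.sabZ (1 / 8) (1 / 10) 5 (by norm_num) (by norm_num)
    (by norm_num) (by norm_num)
  refine ⟨e0, he0, ?_⟩
  intro lam nu Q ε g F hlam hnu _ hQ h
  obtain ⟨C, hC, hgr⟩ := growth h hlam hnu hQ
  obtain ⟨c1, hc1, hlow⟩ := low_line h hlam hnu hQ
  obtain ⟨N, hN⟩ : ∃ N : ℕ, N = ⌈3 * lam⌉₊ + 2 := ⟨_, rfl⟩
  have hN1 : (N : ℝ) ≤ 3 * lam + 3 := by rw [hN]; exact ceil_le hlam
  rw [← hN] at hgr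
  have hl0 : 0 < lam := by linarith
  have hex : 0 < Real.exp (2 / e0) := Real.exp_pos _
  have hCN : 0 < C * 2 ^ N := by positivity
  have hc2 : 0 < 2 / c1 := by positivity
  refine ⟨Real.exp (2 / e0) + C * 2 ^ N + 2 / c1 + 30, by linarith, fun t ht => ?_⟩
  have ht0 : 0 < t := by linarith
  have ht30 : 30 ≤ t := by linarith
  have hlog : 2 / e0 ≤ Real.log t := by
    have := Real.log_le_log hex (show Real.exp (2 / e0) ≤ t by linarith)
    rwa [Real.log_exp] at this
  have hlog0 : 0 < Real.log t := Real.log_pos (by linarith)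
  obtain ⟨L, hL⟩ : ∃ L : ℝ, L = lam * Real.log t := ⟨_, rfl⟩
  have hL0 : 0 < L := by rw [hL]; positivity
  have hLe : 2 ≤ e0 * L := by
    rw [div_le_iff₀ he0] at hlog
    rw [hL]
    nlinarith
  have hexpL : ∀ r : ℝ, Real.exp (r * L) = t ^ (r * lam) := by
    intro r
    rw [Real.rpow_def_of_pos ht0, hL]
    congr 1
    ring
  have hexp2 : 3 ≤ Real.exp (e0 * L) := by
    have := Real.add_one_le_exp (e0 * L)
    linarith
  by_contra hcon
  push Not at hcon
  obtain ⟨b, hb⟩ : ∃ b : ℂ, b = ((-1 : ℝ) : ℂ) + t * I := ⟨_, rfl⟩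
  have hbre : b.re = -1 := by rw [hb]; simp
  have hbim : b.im = t := by rw [hb]; simp
  have hre2 : ∀ z : ℂ, (2 * z + b).re = 2 * z.re - 1 := by
    intro z
    rw [add_re, hbre]
    simp
    ring
  have him2 : ∀ z : ℂ, (2 * z + b).im = 2 * z.im + t := by
    intro z
    rw [add_im, hbim]
    simp
  have hmem : ∀ (z : ℂ) (r : ℝ), z ∈ Metric.closedBall (5 : ℂ) r → 5 - r ≤ z.re ∧ |z.im| ≤ r := by
    intro z r hz
    rw [Metric.mem_closedBall, dist_eq_norm] at hz
    have h2 := (Complex.abs_re_le_norm (z - 5)).trans hz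
    have h3 := (Complex.abs_im_le_norm (z - 5)).trans hz
    rw [sub_re, abs_le] at h2
    rw [sub_im] at h3
    have e1 : (5 : ℂ).re = 5 := rfl
    have e2 : (5 : ℂ).im = 0 := rfl
    rw [e1] at h2
    rw [e2, sub_zero] at h3
    exact ⟨by linarith [h2.1], h3⟩
  have key := hsab L (fun z => F (2 * z + b)) hL0 (h.diff.comp (by fun_prop)) ?_ ?_ ?_
    ((1 / 8 : ℝ) : ℂ) ?_
  · have e1 : 2 * ((1 / 8 : ℝ) : ℂ) + b = ((-3 / 4 : ℝ) : ℂ) + t * I := by
      rw [hb]
      push_cast
      ring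
    simp only [e1] at key
    rw [hexpL] at key
    have h1 := (hlow t (by linarith)).trans key
    have h2 : t ^ (1 / 10 * lam) * t ≤ t ^ (5 / 2 * lam - 3 / 2) := by
      have a1 : t ^ (1 / 10 * lam) * t = t ^ (1 / 10 * lam + 1) := by
        rw [Real.rpow_add ht0, Real.rpow_one]
      rw [a1]
      exact Real.rpow_le_rpow_of_exponent_le (by linarith) (by linarith)
    have h3 : 0 < t ^ (1 / 10 * lam) := Real.rpow_pos_of_pos ht0 _
    have h4 : 2 < c1 * t := by
      have a1 : 2 / c1 < t := by linarith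
      rw [div_lt_iff₀ hc1] at a1
      linarith
    have h5 : c1 * (t ^ (1 / 10 * lam) * t) ≤ t ^ (1 / 10 * lam) :=
      (mul_le_mul_of_nonneg_left h2 hc1.le).trans h1
    nlinarith
  · intro z hz
    obtain ⟨z1, z2⟩ := hmem z 5 hz
    have hre : -1 ≤ (2 * z + b).re := by rw [hre2]; linarith
    refine (hgr _ hre).trans ?_
    have hn : ‖2 * z + b + 3‖ ≤ 2 * t := by
      have e1 : 2 * z + b + 3 = 2 * (z - 5) + (((12 : ℝ) : ℂ) + t * I) := by
        rw [hb]
        push_cast
        ring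
      rw [e1]
      refine (norm_add_le _ _).trans ?_
      rw [Metric.mem_closedBall, dist_eq_norm] at hz
      have a1 : ‖2 * (z - 5)‖ ≤ 10 := by
        rw [norm_mul]
        have : ‖(2 : ℂ)‖ = 2 := by simp
        rw [this]
        linarith
      have a3 : ‖((12 : ℝ) : ℂ) + t * I‖ ≤ 12 + t := by
        refine (norm_add_le _ _).trans ?_
        rw [norm_mul, norm_I, mul_one, norm_real, norm_real, Real.norm_of_nonneg (by norm_num),
          Real.norm_of_nonneg ht0.le]
      linarith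
    have h3 : C * ‖2 * z + b + 3‖ ^ N ≤ C * (2 * t) ^ N :=
      mul_le_mul_of_nonneg_left (pow_le_pow_left₀ (norm_nonneg _) hn N) hC.le
    have h4 : C * (2 * t) ^ N ≤ t ^ (N + 1) := by
      have a1 : 0 < t ^ N := by positivity
      calc C * (2 * t) ^ N = (C * 2 ^ N) * t ^ N := by rw [mul_pow]; ring
        _ ≤ t * t ^ N := mul_le_mul_of_nonneg_right (by linarith) a1.le
        _ = _ := by ring
    rw [hexpL]
    have h5 : t ^ (N + 1) ≤ t ^ (5 * lam) := by
      rw [← Real.rpow_natCast]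
      refine Real.rpow_le_rpow_of_exponent_le (by linarith) ?_
      push_cast
      linarith
    exact h3.trans (h4.trans h5)
  · intro z hz
    obtain ⟨z1, z2⟩ := hmem z (7 / 2) hz
    have hre : 2 ≤ (2 * z + b).re := by rw [hre2]; linarith
    obtain ⟨r1, r2⟩ := far h hre
    refine ⟨?_, by linarith⟩
    refine le_trans ?_ r1
    rw [Real.exp_neg, one_div]
    exact inv_anti₀ (by norm_num) hexp2
  · intro Z hZ
    have hinj : Set.InjOn (fun z : ℂ => 2 * z + b) Z := fun x _ y _ hxy =>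
      mul_left_cancel₀ two_ne_zero (add_right_cancel hxy)
    have h2 := hcon (Z.image fun z => 2 * z + b) (fun ρ hρ => by
      rw [Finset.mem_image] at hρ
      obtain ⟨z, hz, rfl⟩ := hρ
      obtain ⟨hz0, hzb⟩ := hZ z hz
      obtain ⟨z1, z3⟩ := hmem z _ hzb
      rw [abs_le] at z3
      have him : (2 * z + b).im ≠ 0 := by
        rw [him2]
        have := z3.1
        intro h0
        linarith
      refine ⟨hz0, ?_, ?_, ?_⟩
      · by_contra hneg
        push Not at hneg
        exact nonvan_left h hl0.ne' hQ him hneg hz0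
      · by_contra hpos
        push Not at hpos
        exact nonvan h hpos hz0
      · rw [him2, abs_le]
        constructor <;> linarith [z3.1, z3.2])
    rw [Finset.sum_image hinj] at h2
    have h3 : ∑ z ∈ Z, (analyticOrderNatAt (fun z => F (2 * z + b)) z : ℝ) =
        ∑ z ∈ Z, (analyticOrderNatAt F (2 * z + b) : ℝ) :=
      Finset.sum_congr rfl fun z _ => by rw [ord_affine]
    rw [h3, hL]
    linarith
  · rw [Metric.mem_closedBall, dist_eq_norm]
    have : ((1 / 8 : ℝ) : ℂ) - 5 = ((1 / 8 - 5 : ℝ) : ℂ) := by push_cast; rfl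
    rw [this, Complex.norm_real, Real.norm_eq_abs, abs_of_neg (by norm_num)]
    norm_num

end Pool.Agent.Q34.NE
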